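import Mathlib
import Pool.Agent.Lib.helper28.MoranB

namespace Pool.Agent.Results.MP_90e10c_an.FewComplete

open MeasureTheory Set Filter Topology
open scoped InnerProductSpace ENNReal
open Pool.Agent.H28Moran

/-- `(μ, Λ)` is a spectral pair: the exponentials `x ↦ exp (-2 π i l x)`, `l ∈ Λ`, form an
orthonormal (Hilbert) basis of `L²(μ)`. -/
def IsSpectral (μ : Measure ℝ) (Λ : Set ℝ) : Prop :=
  ∃ b : HilbertBasis Λ ℂ (Lp ℂ 2 μ), ∀ l : Λ,
    (b l : ℝ → ℂ) =ᵐ[μ] fun x => Complex.exp (-(2 * Real.pi * Complex.I * (l : ℝ) * x))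

/-- The Moran measure. -/
noncomputable def mu : Measure ℝ := P.map X

instance : IsProbabilityMeasure mu := Measure.isProbabilityMeasure_map meas_X.aemeasurable

/-- The spectrum. -/
def Sp : Set ℝ := {x | ∃ n, ∃ a ∈ Λ n, x = (a : ℝ)}

lemma int_mu (ξ : ℝ) : ∫ x, ex ξ x ∂mu = F ξ :=
  integral_map meas_X.aemeasurable (cont_ex ξ).aestronglyMeasurable

lemma mu_compl {K : Set ℝ} (hK : MeasurableSet K) (h : ∀ ω, X ω ∈ K) : mu Kᶜ = 0 := by
  rw [mu, Measure.map_apply meas_X hK.compl]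
  have : X ⁻¹' Kᶜ = ∅ := eq_empty_of_forall_notMem fun ω hω => hω (h ω)
  rw [this, measure_empty]

lemma X_mem (ω : Ω) : X ω ∈ Icc (0 : ℝ) 2 := by
  simpa [L] using X_tail 0 ω

lemma on_basis : Orthonormal ℂ fun l : Sp => eL mu l := by
  classical
  rw [orthonormal_iff_ite]
  rintro ⟨x, n, a, ha, rfl⟩ ⟨y, m, b, hb, rfl⟩
  rw [inner_ex mu (eL_ae mu _) (eL_ae mu _)]
  split_ifs with h
  · have e : (a : ℝ) = b := Subtype.mk.inj h
    simp [e, ex_zero']
  · rw [int_mu]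
    exact F_orth (Λ_mono (le_max_left n m) ha) (Λ_mono (le_max_right n m) hb)
      (fun e => h (by subst e; rfl))

lemma spectral : IsSpectral mu Sp := by
  classical
  have hb : (Submodule.span ℂ (range fun l : Sp => eL mu l))ᗮ = ⊥ := by
    rw [Submodule.eq_bot_iff]
    intro g hg
    refine total mu fun ξ => orth_of_bessel on_basis (fun l => Submodule.inner_right_of_mem_orthogonal
      (Submodule.subset_span (mem_range_self l)) hg) fun ε hε => ?_
    obtain ⟨n, hn⟩ := F_pars ξ hε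
    have n1 : ‖eL mu ξ‖ ^ 2 = 1 := by
      have := inner_ex mu (eL_ae mu ξ) (eL_ae mu ξ)
      rw [inner_self_eq_norm_sq_to_K] at this
      simp only [sub_self, ex_zero', integral_const, probReal_univ, one_smul] at this
      exact Complex.ofReal_injective (by push_cast; exact this)
    refine ⟨(Λ n).attach.image fun a => ⟨(a.1 : ℝ), n, a.1, a.2, rfl⟩, ?_⟩
    rw [n1, Finset.sum_image (fun a _ b _ h => Subtype.ext (by exact_mod_cast Subtype.mk.inj h))]
    simp_rw [inner_ex mu (eL_ae mu _) (eL_ae mu _), int_mu]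
    rwa [Finset.sum_attach (Λ n) fun a => ‖F (ξ - a)‖ ^ 2]
  refine ⟨HilbertBasis.mkOfOrthogonalEqBot on_basis hb, fun l => ?_⟩
  rw [HilbertBasis.coe_mkOfOrthogonalEqBot]
  exact eL_ae mu l

lemma L_Sp (n : ℕ) : (L n : ℝ) ∈ Sp := ⟨_, _, L_mem n, rfl⟩

lemma complete_sub {t : ℝ} (h : IsSpectral mu ((fun l => t * l) '' Sp)) :
    t ∈ ({-1, 0, 1} : Set ℝ) := by
  by_contra ht
  simp only [mem_insert_iff, mem_singleton_iff, not_or] at ht
  obtain ⟨b, hb⟩ := h
  have key : ∀ n, F (t * L n) = 0 := by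
    intro n
    have hL : (0 : ℝ) < L n := by exact_mod_cast L_pos n
    have h0 : t * 0 ∈ (fun l => t * l) '' Sp := ⟨0, ⟨0, 0, zero_mem 0, by simp⟩, rfl⟩
    have h1 : t * L n ∈ (fun l => t * l) '' Sp := ⟨_, L_Sp n, rfl⟩
    have := b.orthonormal.2 (i := ⟨_, h0⟩) (j := ⟨_, h1⟩) fun e => by
      have := Subtype.mk.inj e
      rw [mul_zero, eq_comm, mul_eq_zero] at this
      exact this.elim ht.2.1 hL.ne'
    simp only at this
    rw [inner_ex mu (hb _) (hb _), int_mu] at this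
    simpa using this
  obtain ⟨j, ⟨z, hz⟩, -⟩ := F_zero (key 0)
  have hs : t = ((z * L j : ℤ) : ℝ) := by push_cast; simpa [L] using hz
  generalize z * L j = s at hs
  subst hs
  have h2 : 2 ≤ s.natAbs := by
    have a : s ≠ -1 := fun e => ht.1 (by simp [e])
    have b : s ≠ 0 := fun e => ht.2.1 (by simp [e])
    have c : s ≠ 1 := fun e => ht.2.2 (by simp [e])
    omega
  obtain ⟨k, hk⟩ : ∃ k, s.natAbs = k + 2 := ⟨s.natAbs - 2, by omega⟩
  obtain ⟨i, ⟨w, hw⟩, hi⟩ := F_zero (key k)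
  have e : (s * L k).natAbs = B k := by rw [Int.natAbs_mul, hk]; simp [B]
  rcases le_or_gt i k with hik | hik
  · apply hi
    have : (B i : ℤ) ∣ s * L k := by
      rw [Int.natCast_dvd, e]; exact B_dvd hik
    obtain ⟨c, hc⟩ := this
    exact ⟨c, by rw [mul_comm (c : ℝ)]; exact_mod_cast hc⟩
  · have hw' : s * L k = w * L i := by exact_mod_cast hw
    have : L i ∣ B k := by
      rw [← e, ← Int.natCast_dvd, hw']; exact Dvd.intro_left _ rfl
    exact absurd (Nat.le_of_dvd (B_pos k) this) (not_le.mpr (B_lt_L hik))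

/-- Covering sets. -/
def Kn (n : ℕ) : Set ℝ :=
  ⋃ m ∈ Finset.range (2 * B n + 1), Icc ((m : ℝ) / B n) ((m : ℝ) / B n + 2 / L (n + 1))

lemma meas_Kn (n : ℕ) : MeasurableSet (Kn n) :=
  Finset.measurableSet_biUnion _ fun _ _ => measurableSet_Icc

lemma X_Kn (n : ℕ) (ω : Ω) : X ω ∈ Kn n := by
  have hB : (0 : ℝ) < B n := by exact_mod_cast B_pos n
  have e : ∑ k ∈ Finset.range (n + 1), tm k ω =
      ((∑ k ∈ Finset.range (n + 1), (ω k : ℕ) * (B n / B k) : ℕ) : ℝ) / B n := by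
    rw [Nat.cast_sum, Finset.sum_div]
    refine Finset.sum_congr rfl fun k hk => ?_
    have hk' : (0 : ℝ) < B k := by exact_mod_cast B_pos k
    rw [Nat.cast_mul, Nat.cast_div (B_dvd (by have := Finset.mem_range.mp hk; omega)) hk'.ne', tm]
    field_simp
  have t := X_tail (n + 1) ω
  rw [e] at t
  generalize (∑ k ∈ Finset.range (n + 1), (ω k : ℕ) * (B n / B k) : ℕ) = m at t
  have h2 : (m : ℝ) / B n ≤ 2 := by linarith [(X_mem ω).2, t.1]
  rw [div_le_iff₀ hB] at h2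
  have h3 : m ≤ 2 * B n := by exact_mod_cast h2
  exact mem_biUnion (x := m) (Finset.mem_coe.mpr (Finset.mem_range.mpr (by omega)))
    ⟨by linarith [t.1], by linarith [t.2]⟩

lemma vol_Kn (n : ℕ) : volume (Kn n) ≤ ENNReal.ofReal (6 * (1 / ((n : ℝ) + 1))) := by
  refine (measure_biUnion_finset_le _ _).trans ?_
  simp only [Real.volume_Icc, add_sub_cancel_left, Finset.sum_const, Finset.card_range,
    nsmul_eq_mul]
  rw [← ENNReal.ofReal_natCast, ← ENNReal.ofReal_mul (by positivity)]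
  refine ENNReal.ofReal_le_ofReal ?_
  have hB : (1 : ℝ) ≤ B n := by exact_mod_cast B_pos n
  rw [L_succ, ← mul_div_assoc, ← mul_div_assoc]
  push_cast
  rw [div_le_div_iff₀ (by positivity) (by positivity)]
  have hn : (0 : ℝ) ≤ n := Nat.cast_nonneg n
  nlinarith [mul_nonneg hn (sub_nonneg.mpr hB)]

lemma singular : mu ⟂ₘ volume := by
  refine ⟨(⋂ n, Kn n)ᶜ, (MeasurableSet.iInter meas_Kn).compl,
    mu_compl (MeasurableSet.iInter meas_Kn) fun ω => mem_iInter.mpr fun n => X_Kn n ω, ?_⟩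
  rw [compl_compl]
  have t := ENNReal.tendsto_ofReal
    ((tendsto_one_div_add_atTop_nhds_zero_nat (𝕜 := ℝ)).const_mul 6)
  rw [mul_zero, ENNReal.ofReal_zero] at t
  exact le_antisymm (ge_of_tendsto' t fun n =>
    (measure_mono (iInter_subset _ n)).trans (vol_Kn n)) zero_le

theorem result : ∃ (μ : Measure ℝ) (Λ : Set ℝ), IsProbabilityMeasure μ ∧
    (∃ K : Set ℝ, IsCompact K ∧ μ Kᶜ = 0) ∧ μ ⟂ₘ volume ∧ (∀ x, μ {x} = 0) ∧ Λ.Countable ∧
    IsSpectral μ Λ ∧ {t : ℝ | IsSpectral μ ((fun l => t * l) '' Λ)} ⊆ {-1, 0, 1} ∧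
    {t : ℝ | IsSpectral μ ((fun l => t * l) '' Λ)}.Finite := by
  have hsub : {t : ℝ | IsSpectral mu ((fun l => t * l) '' Sp)} ⊆ {-1, 0, 1} :=
    fun t ht => complete_sub ht
  refine ⟨mu, Sp, inferInstance, ⟨_, isCompact_Icc, mu_compl measurableSet_Icc X_mem⟩, singular,
    ?_, (countable_range (Nat.cast : ℕ → ℝ)).mono ?_, spectral, hsub,
    (Set.toFinite _).subset hsub⟩
  · have hi : Sp.Infinite := by
      refine infinite_of_not_bddAbove ?_
      rintro ⟨c, hc⟩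
      obtain ⟨n, hn⟩ := exists_nat_gt c
      have h1 := hc (L_Sp n)
      have h2 : (n : ℝ) < L n := by exact_mod_cast lt_L n
      linarith
    haveI := hi.to_subtype
    exact no_atom mu on_basis (fun l => eL_ae mu l)
  · rintro x ⟨n, a, -, rfl⟩
    exact ⟨a, rfl⟩

end Pool.Agent.Results.MP_90e10c_an.FewComplete
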